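import Mathlib
import Pool.Agent.H.MP_d37bef_lc.A

set_option autoImplicit false

namespace Pool.Agent.Results.MP_70b496_lc.Q1

open Cardinal Pool.Agent.H.MP_d37bef_lc

theorem result : ss Conv ≤ max ℵ₀ (⨆ b : ℕ → ℕ, dLc b) :=
  upper fun _ h => h.1

end Pool.Agent.Results.MP_70b496_lc.Q1
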