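import Mathlib
import Pool.Agent.H.MP_d37bef_lc.A

set_option autoImplicit false

namespace Pool.Agent.Results.MP_70b496_lc.Q2

open Cardinal Pool.Agent.H.MP_d37bef_lc

theorem result : min dd covN ≤ ss Conv :=
  lower (fun _ h => h.1) fun _ => id

end Pool.Agent.Results.MP_70b496_lc.Q2
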